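import Pool.Agent.helper47.CL.SpecD

set_option autoImplicit false

namespace Pool.Agent.helper41.CL

open Finset

theorem MB_reindex {α : Type} [DecidableEq α] (V : Finset α) (E : Finset (Finset α)) (s : ℕ) :
    ∑ J ∈ ind V E s, #(ext V E J) ^ 2 = ∑ S ∈ ind V E (s + 1), ∑ u ∈ S, #(ext V E (S.erase u)) := by
  have h1 : ∀ J ∈ ind V E s, #(ext V E J) ^ 2 = ∑ _u ∈ ext V E J, #(ext V E J) := by
    intro J _
    rw [sum_const, smul_eq_mul, sq]
  rw [sum_congr rfl h1, sum_sigma', sum_sigma']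
  refine sum_nbij' (i := fun x => ⟨insert x.2 x.1, x.2⟩) (j := fun x => ⟨x.1.erase x.2, x.2⟩) ?_ ?_ ?_ ?_ ?_
  · rintro ⟨J, u⟩ hx
    rw [mem_sigma] at hx ⊢
    obtain ⟨hJ, hu⟩ := hx
    simp only [ind, ext, mem_filter, mem_powersetCard] at hJ hu ⊢
    obtain ⟨⟨hJV, hJc⟩, hJi⟩ := hJ
    obtain ⟨huV, huJ, hui⟩ := hu
    refine ⟨⟨⟨insert_subset huV hJV, ?_⟩, hui⟩, mem_insert_self _ _⟩
    rw [card_insert_of_notMem huJ, hJc]
  · rintro ⟨S, u⟩ hx
    rw [mem_sigma] at hx ⊢
    obtain ⟨hS, hu⟩ := hx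
    simp only [ind, ext, mem_filter, mem_powersetCard] at hS hu ⊢
    obtain ⟨⟨hSV, hSc⟩, hSi⟩ := hS
    refine ⟨⟨⟨(erase_subset _ _).trans hSV, ?_⟩, fun e he hes => hSi e he (hes.trans (erase_subset _ _))⟩,
      hSV hu, notMem_erase _ _, ?_⟩
    · rw [card_erase_of_mem hu, hSc, Nat.add_sub_cancel]
    · rw [insert_erase hu]
      exact hSi
  · rintro ⟨J, u⟩ hx
    rw [mem_sigma] at hx
    obtain ⟨-, hu⟩ := hx
    simp only [ext, mem_filter] at hu
    simp only [erase_insert hu.2.1]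
  · rintro ⟨S, u⟩ hx
    rw [mem_sigma] at hx
    simp only [insert_erase hx.2]
  · rintro ⟨J, u⟩ hx
    rw [mem_sigma] at hx
    obtain ⟨-, hu⟩ := hx
    simp only [ext, mem_filter] at hu
    simp only [erase_insert hu.2.1]

theorem MB_point {α : Type} [DecidableEq α] (V : Finset α) (E : Finset (Finset α)) (s : ℕ) (hE : Gr V E)
    (S : Finset α) (hS : S ∈ ind V E (s + 1)) (v : α) (hv : v ∈ V) :
    #(S.filter fun u => v ∈ ext V E (S.erase u)) ≤ 1 + if v ∈ ext V E S then s else 0 := by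
  obtain ⟨hS1, hSi⟩ := mem_filter.1 hS
  obtain ⟨hSV, hSc⟩ := mem_powersetCard.1 hS1
  split_ifs with h
  · have := card_filter_le S (fun u => v ∈ ext V E (S.erase u))
    omega
  · rw [add_zero]
    refine card_le_one.2 ?_
    intro u1 h1 u2 h2
    obtain ⟨g1, h1⟩ := mem_filter.1 h1
    obtain ⟨g2, h2⟩ := mem_filter.1 h2
    obtain ⟨-, a1, b1⟩ := mem_filter.1 h1
    obtain ⟨-, a2, b2⟩ := mem_filter.1 h2
    by_contra hne
    by_cases hvS : v ∈ S
    · have e1 : v = u1 := by
        by_contra h3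
        exact a1 (mem_erase.2 ⟨h3, hvS⟩)
      have e2 : v = u2 := by
        by_contra h3
        exact a2 (mem_erase.2 ⟨h3, hvS⟩)
      exact hne (e1.symm.trans e2)
    · have h3 : ∃ e ∈ E, e ⊆ insert v S := by
        by_contra hcon
        push Not at hcon
        exact h (mem_filter.2 ⟨hv, hvS, hcon⟩)
      obtain ⟨e, he, hes⟩ := h3
      have m0 : v ∈ e := by
        by_contra hcon
        refine hSi e he ?_
        intro x hx
        rcases mem_insert.1 (hes hx) with rfl | h4
        · exact absurd hx hcon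
        · exact h4
      have m1 : u1 ∈ e := by
        by_contra hcon
        refine b1 e he ?_
        intro x hx
        rcases mem_insert.1 (hes hx) with rfl | h4
        · exact mem_insert_self _ _
        · exact mem_insert_of_mem (mem_erase.2 ⟨fun h5 => hcon (h5 ▸ hx), h4⟩)
      have m2 : u2 ∈ e := by
        by_contra hcon
        refine b2 e he ?_
        intro x hx
        rcases mem_insert.1 (hes hx) with rfl | h4
        · exact mem_insert_self _ _
        · exact mem_insert_of_mem (mem_erase.2 ⟨fun h5 => hcon (h5 ▸ hx), h4⟩)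
      have n1 : v ≠ u1 := fun h5 => hvS (h5 ▸ g1)
      have n2 : v ≠ u2 := fun h5 => hvS (h5 ▸ g2)
      have h6 : ({v, u1, u2} : Finset α) ⊆ e := by
        intro x hx
        simp only [mem_insert, mem_singleton] at hx
        rcases hx with rfl | rfl | rfl
        · exact m0
        · exact m1
        · exact m2
      have h7 := card_le_card h6
      rw [card_eq_three.2 ⟨v, u1, u2, n1, n2, hne, rfl⟩, (hE e he).2] at h7
      omega

theorem MB_set {α : Type} [DecidableEq α] (V : Finset α) (E : Finset (Finset α)) (s : ℕ) (hE : Gr V E)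
    (S : Finset α) (hS : S ∈ ind V E (s + 1)) :
    ∑ u ∈ S, #(ext V E (S.erase u)) ≤ #V + s * #(ext V E S) := by
  have h1 : ∀ u ∈ S, #(ext V E (S.erase u)) = ∑ v ∈ V, if v ∈ ext V E (S.erase u) then 1 else 0 := by
    intro u _
    rw [← sum_filter, sum_const, smul_eq_mul, mul_one]
    congr 1
    ext v
    rw [mem_filter]
    exact ⟨fun h => ⟨(mem_filter.1 h).1, h⟩, fun h => h.2⟩
  rw [sum_congr rfl h1, sum_comm]
  have h2 : ∀ v ∈ V, (∑ u ∈ S, if v ∈ ext V E (S.erase u) then 1 else 0) ≤ 1 + if v ∈ ext V E S then s else 0 := by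
    intro v hv
    rw [← sum_filter, sum_const, smul_eq_mul, mul_one]
    exact MB_point V E s hE S hS v hv
  refine (sum_le_sum h2).trans ?_
  rw [sum_add_distrib, sum_const, smul_eq_mul, mul_one, ← sum_filter, sum_const, smul_eq_mul, mul_comm]
  have h3 : V.filter (fun v => v ∈ ext V E S) = ext V E S := by
    ext v
    rw [mem_filter]
    exact ⟨fun h => h.2, fun h => ⟨(mem_filter.1 h).1, h⟩⟩
  rw [h3]

theorem MB (h1 : MA_stmt) : MB_stmt := by
  intro α _ V E s hE
  rw [MB_reindex]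
  refine (sum_le_sum fun S hS => MB_set V E s hE S hS).trans ?_
  rw [sum_add_distrib, sum_const, smul_eq_mul, ← mul_sum, h1 α V E (s + 1), mul_comm #(ind V E (s + 1)) #V, mul_assoc]

end Pool.Agent.helper41.CL
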